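import Pool.Agent.Q253.NF.Stm

set_option autoImplicit false

/-!
# Project NF (helper253), job MS: means of almost periodic functions

`mean_exp` is copied from `Pool/Agent/Q151/LQ/MV.lean`, `mean_c` and `mean_close` are adapted from
`Pool/Agent/Q253/LC/C1.lean`.
-/

namespace Pool.Agent.Q153.NF

open MeasureTheory Filter Topology Set Complex
open scoped ComplexConjugate

/-- mean value of a single exponential -/
theorem mean_exp (a : ℝ) :
    Tendsto (fun U : ℝ => ((1 / U : ℝ) : ℂ) * ∫ u in (0 : ℝ)..U, cexp (I * a * u)) atTop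
      (𝓝 (if a = 0 then 1 else 0)) := by
  by_cases ha : a = 0
  · subst ha
    simp only [if_true]
    refine Tendsto.congr' ?_ tendsto_const_nhds
    filter_upwards [eventually_gt_atTop 0] with U hU
    have hU' : (U : ℂ) ≠ 0 := by exact_mod_cast hU.ne'
    simp [hU']
  · rw [if_neg ha]
    have hI : (I * a : ℂ) ≠ 0 := mul_ne_zero I_ne_zero (by exact_mod_cast ha)
    rw [tendsto_zero_iff_norm_tendsto_zero]
    refine squeeze_zero' (g := fun U : ℝ => (2 / |a|) * U⁻¹) (Eventually.of_forall fun U => norm_nonneg _) ?_ ?_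
    · filter_upwards [eventually_gt_atTop 0] with U hU
      rw [integral_exp_mul_complex hI]
      rw [norm_mul, norm_div]
      have h1 : ‖(((1 / U : ℝ) : ℂ))‖ = U⁻¹ := by
        rw [Complex.norm_real, Real.norm_eq_abs, abs_of_pos (by positivity)]
        simp
      have h2 : ‖(I * a : ℂ)‖ = |a| := by
        rw [norm_mul, Complex.norm_I, one_mul, Complex.norm_real, Real.norm_eq_abs]
      have h3 : ∀ t : ℝ, ‖cexp (I * a * t)‖ = 1 := by
        intro t
        rw [show (I * a * t : ℂ) = ((a * t : ℝ) : ℂ) * I from by push_cast; ring]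
        exact Complex.norm_exp_ofReal_mul_I _
      have h4 : ‖cexp (I * a * U) - cexp (I * a * (0 : ℝ))‖ ≤ 2 := by
        refine (norm_sub_le _ _).trans ?_
        rw [h3, h3]
        norm_num
      rw [h1, h2, mul_comm]
      have h5 : 0 < |a| := abs_pos.mpr ha
      gcongr
    · have := (tendsto_inv_atTop_zero (𝕜 := ℝ)).const_mul (2 / |a|)
      simpa using this

theorem nexp (c : ℂ) (a u : ℝ) : ‖c * cexp (I * a * u)‖ = ‖c‖ := by
  rw [norm_mul, show (I * a * u : ℂ) = ((a * u : ℝ) : ℂ) * I from by push_cast; ring,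
    Complex.norm_exp_ofReal_mul_I, mul_one]

/-- the mean value of an absolutely convergent series of exponentials -/
theorem mean_c {J : Type} [Countable J] (c : J → ℂ) (a : J → ℝ) (hs : Summable fun n => ‖c n‖) :
    Tendsto (fun U : ℝ => ((1 / U : ℝ) : ℂ) * ∫ u in (0 : ℝ)..U, ∑' n, c n * cexp (I * a n * u)) atTop
      (𝓝 (∑' n, if a n = 0 then c n else 0)) := by
  have hint : ∀ U : ℝ, 0 < U → (∫ u in (0 : ℝ)..U, ∑' n, c n * cexp (I * a n * u)) =
      ∑' n, ∫ u in (0 : ℝ)..U, c n * cexp (I * a n * u) := by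
    intro U hU
    have h1 := intervalIntegral.hasSum_integral_of_dominated_convergence (μ := volume) (a := 0) (b := U)
      (F := fun (n : J) (u : ℝ) => c n * cexp (I * a n * u)) (f := fun u => ∑' n, c n * cexp (I * a n * u))
      (fun n _ => ‖c n‖) (fun n => ?_) (fun n => ?_) ?_ ?_ ?_
    · exact h1.tsum_eq.symm
    · exact (by fun_prop : Continuous fun u : ℝ => c n * cexp (I * a n * u)).aestronglyMeasurable
    · exact Eventually.of_forall fun u _ => (nexp _ _ _).le
    · exact Eventually.of_forall fun u _ => hs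
    · exact intervalIntegrable_const
    · refine Eventually.of_forall fun u _ => ?_
      exact (Summable.of_norm (by simpa only [nexp] using hs)).hasSum
  have hlim : Tendsto (fun U : ℝ => ∑' n, c n * (((1 / U : ℝ) : ℂ) * ∫ u in (0 : ℝ)..U, cexp (I * a n * u))) atTop
      (𝓝 (∑' n, c n * (if a n = 0 then 1 else 0))) := by
    refine tendsto_tsum_of_dominated_convergence (bound := fun n => ‖c n‖) hs (fun n => ?_) ?_
    · exact (mean_exp (a n)).const_mul _
    · filter_upwards [eventually_gt_atTop 0] with U hU n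
      rw [norm_mul]
      have h2 : ‖(((1 / U : ℝ) : ℂ) * ∫ u in (0 : ℝ)..U, cexp (I * a n * u))‖ ≤ 1 := by
        rw [norm_mul]
        have h3 : ‖∫ u in (0 : ℝ)..U, cexp (I * a n * u)‖ ≤ 1 * |U - 0| := by
          refine intervalIntegral.norm_integral_le_of_norm_le_const fun u _ => ?_
          rw [show (I * a n * u : ℂ) = ((a n * u : ℝ) : ℂ) * I from by push_cast; ring]
          rw [Complex.norm_exp_ofReal_mul_I]
        rw [sub_zero, one_mul, abs_of_pos hU] at h3
        rw [Complex.norm_real, Real.norm_eq_abs, abs_of_pos (by positivity)]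
        calc 1 / U * ‖∫ u in (0 : ℝ)..U, cexp (I * a n * u)‖ ≤ 1 / U * U := by gcongr
          _ = 1 := by field_simp
      calc ‖c n‖ * _ ≤ ‖c n‖ * 1 := mul_le_mul_of_nonneg_left h2 (norm_nonneg _)
        _ = ‖c n‖ := mul_one _
  have e1 : (∑' n, if a n = 0 then c n else 0) = ∑' n, c n * (if a n = 0 then 1 else 0) := by
    refine tsum_congr fun n => ?_
    split_ifs <;> simp
  rw [e1]
  refine hlim.congr' ?_
  filter_upwards [eventually_gt_atTop 0] with U hU
  rw [hint U hU, ← tsum_mul_left]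
  refine tsum_congr fun n => ?_
  rw [intervalIntegral.integral_const_mul]
  ring

/-- the same without countability -/
theorem mean_c' {J : Type} (c : J → ℂ) (a : J → ℝ) (hs : Summable fun n => ‖c n‖) :
    Tendsto (fun U : ℝ => ((1 / U : ℝ) : ℂ) * ∫ u in (0 : ℝ)..U, ∑' n, c n * cexp (I * a n * u)) atTop
      (𝓝 (∑' n, if a n = 0 then c n else 0)) := by
  have h0 : Function.support (fun n => ‖c n‖) = Function.support c := by
    ext n
    simp
  have : Countable (Function.support c) := by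
    rw [← h0]
    exact hs.countable_support.to_subtype
  have h := mean_c (J := Function.support c) (fun n => c n) (fun n => a n)
    (hs.comp_injective Subtype.val_injective)
  have e : (∑' n : Function.support c, if a n = 0 then c n else 0) = ∑' n, if a n = 0 then c n else 0 := by
    refine tsum_subtype_eq_of_support_subset (f := fun n => if a n = 0 then c n else 0) ?_
    intro n hn
    rw [Function.mem_support] at hn ⊢
    intro h0
    apply hn
    rw [h0]
    split_ifs <;> rfl
  have e2 : ∀ u : ℝ, (∑' n : Function.support c, c n * cexp (I * a n * u)) = ∑' n, c n * cexp (I * a n * u) := by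
    intro u
    refine tsum_subtype_eq_of_support_subset (f := fun n => c n * cexp (I * a n * u)) ?_
    intro n hn
    rw [Function.mem_support] at hn ⊢
    intro h0
    apply hn
    rw [h0, zero_mul]
  rw [e] at h
  simpa only [e2] using h

/-- continuity of the series -/
theorem cont_c {J : Type} (c : J → ℂ) (a : J → ℝ) (hs : Summable fun n => ‖c n‖) :
    Continuous fun u : ℝ => ∑' n, c n * cexp (I * a n * u) :=
  continuous_tsum (fun n => by fun_prop) hs fun n u => (nexp _ _ _).le

theorem norm_c {J : Type} (c : J → ℂ) (a : J → ℝ) (hs : Summable fun n => ‖c n‖) (u : ℝ) :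
    ‖∑' n, c n * cexp (I * a n * u)‖ ≤ ∑' n, ‖c n‖ := by
  refine (norm_tsum_le_tsum_norm (by simpa only [nexp] using hs)).trans ?_
  rw [tsum_congr fun n => nexp _ _ _]

/-- functions close to the series -/
theorem mean_close {J : Type} (c : J → ℂ) (a : J → ℝ) (hs : Summable fun n => ‖c n‖) (H : ℝ → ℂ)
    (hH : Continuous H) (A : ℝ)
    (hA : ∀ u : ℝ, 0 ≤ u → ‖H u - ∑' n, c n * cexp (I * a n * u)‖ ≤ A * Real.exp (-(u / 4))) :
    Tendsto (fun U : ℝ => ((1 / U : ℝ) : ℂ) * ∫ u in (0 : ℝ)..U, H u) atTop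
      (𝓝 (∑' n, if a n = 0 then c n else 0)) := by
  have hA0 : 0 ≤ A := by
    have h1 := hA 0 le_rfl
    rw [zero_div, neg_zero, Real.exp_zero, mul_one] at h1
    exact (norm_nonneg _).trans h1
  have hSc := cont_c c a hs
  have hmean : Tendsto (fun U : ℝ => ((1 / U : ℝ) : ℂ) * ∫ u in (0 : ℝ)..U, (H u - ∑' n, c n * cexp (I * a n * u)))
      atTop (𝓝 0) := by
    have hb : ∀ U : ℝ, 0 < U →
        ‖((1 / U : ℝ) : ℂ) * ∫ u in (0 : ℝ)..U, (H u - ∑' n, c n * cexp (I * a n * u))‖ ≤ 4 * A / U := by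
      intro U hU
      have h1 : ‖∫ u in (0 : ℝ)..U, (H u - ∑' n, c n * cexp (I * a n * u))‖ ≤
          ∫ u in (0 : ℝ)..U, A * Real.exp (-(u / 4)) := by
        refine intervalIntegral.norm_integral_le_of_norm_le hU.le ?_ ?_
        · exact Eventually.of_forall fun u hu => hA u hu.1.le
        · exact (by fun_prop : Continuous fun u : ℝ => A * Real.exp (-(u / 4))).intervalIntegrable _ _
      have h2 : ∫ u in (0 : ℝ)..U, A * Real.exp (-(u / 4)) ≤ 4 * A := by
        have h3 : ∫ u in (0 : ℝ)..U, A * Real.exp (-(u / 4)) = A * (4 * (1 - Real.exp (-(U / 4)))) := by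
          rw [intervalIntegral.integral_const_mul]
          congr 1
          have h4 : ∀ u ∈ Set.uIcc (0 : ℝ) U,
              HasDerivAt (fun u : ℝ => -4 * Real.exp (-(u / 4))) (Real.exp (-(u / 4))) u := by
            intro u _
            have h5 : HasDerivAt (fun u : ℝ => -(u / 4)) (-(1 / 4)) u := ((hasDerivAt_id u).div_const 4).neg
            have h6 := (h5.exp).const_mul (-4 : ℝ)
            have e : -4 * (Real.exp (-(u / 4)) * -(1 / 4)) = Real.exp (-(u / 4)) := by ring
            rw [e] at h6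
            exact h6
          rw [intervalIntegral.integral_eq_sub_of_hasDerivAt h4
            ((by fun_prop : Continuous fun u : ℝ => Real.exp (-(u / 4))).intervalIntegrable _ _)]
          rw [zero_div, neg_zero, Real.exp_zero]
          ring
        rw [h3]
        have := Real.exp_pos (-(U / 4))
        nlinarith
      rw [norm_mul, Complex.norm_real, Real.norm_of_nonneg (by positivity)]
      calc 1 / U * ‖∫ u in (0 : ℝ)..U, (H u - ∑' n, c n * cexp (I * a n * u))‖ ≤ 1 / U * (4 * A) :=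
            mul_le_mul_of_nonneg_left (h1.trans h2) (by positivity)
        _ = 4 * A / U := by ring
    refine squeeze_zero_norm' ?_ (tendsto_const_nhds.div_atTop tendsto_id : Tendsto (fun U : ℝ => 4 * A / U) atTop (𝓝 0))
    filter_upwards [eventually_gt_atTop 0] with U hU using hb U hU
  have h3 := (mean_c' c a hs).add hmean
  rw [add_zero] at h3
  refine h3.congr fun U => ?_
  have i1 : IntervalIntegrable (fun u : ℝ => ∑' n, c n * cexp (I * a n * u)) volume 0 U := hSc.intervalIntegrable _ _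
  have i2 : IntervalIntegrable (fun u : ℝ => H u - ∑' n, c n * cexp (I * a n * u)) volume 0 U :=
    (hH.sub hSc).intervalIntegrable _ _
  rw [← mul_add, ← intervalIntegral.integral_add i1 i2]
  congr 1
  refine intervalIntegral.integral_congr fun u _ => ?_
  ring

theorem diag (w v : ℝ → ℝ) : (∑' p : ℝ × ℝ, if p.1 - p.2 = 0 then ((w p.1 : ℝ) : ℂ) * ((v p.2 : ℝ) : ℂ) else 0) =
    ((∑' γ : ℝ, w γ * v γ : ℝ) : ℂ) := by
  have hinj : Function.Injective (fun γ : ℝ => ((γ, γ) : ℝ × ℝ)) := fun a b h => (Prod.mk.inj h).1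
  rw [← hinj.tsum_eq (f := fun p : ℝ × ℝ => if p.1 - p.2 = 0 then ((w p.1 : ℝ) : ℂ) * ((v p.2 : ℝ) : ℂ) else 0)]
  · rw [Complex.ofReal_tsum]
    refine tsum_congr fun γ => ?_
    dsimp only
    rw [if_pos (sub_self γ), Complex.ofReal_mul]
  · intro p hp
    rw [Function.mem_support] at hp
    have h1 : p.1 - p.2 = 0 := by
      by_contra hcon
      exact hp (if_neg hcon)
    exact ⟨p.1, Prod.ext rfl (sub_eq_zero.1 h1)⟩

theorem sumPr (w v : ℝ → ℝ) (hw' : Summable fun γ : ℝ => ‖((w γ : ℝ) : ℂ)‖)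
    (hv' : Summable fun γ : ℝ => ‖((v γ : ℝ) : ℂ)‖) :
    Summable fun p : ℝ × ℝ => ‖((w p.1 : ℝ) : ℂ) * ((v p.2 : ℝ) : ℂ)‖ :=
  Summable.mul_norm (f := fun γ : ℝ => ((w γ : ℝ) : ℂ)) (g := fun γ : ℝ => ((v γ : ℝ) : ℂ)) hw' hv'

theorem prodS (w v : ℝ → ℝ) (hw' : Summable fun γ : ℝ => ‖((w γ : ℝ) : ℂ)‖)
    (hv' : Summable fun γ : ℝ => ‖((v γ : ℝ) : ℂ)‖) (u : ℝ) :
    (∑' γ : ℝ, (w γ : ℂ) * cexp (I * γ * u)) * conj (∑' γ : ℝ, (v γ : ℂ) * cexp (I * γ * u)) =
      ∑' p : ℝ × ℝ, ((w p.1 : ℝ) : ℂ) * ((v p.2 : ℝ) : ℂ) * cexp (I * ((p.1 - p.2 : ℝ) : ℂ) * u) := by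
  have h1 : conj (∑' γ : ℝ, (v γ : ℂ) * cexp (I * γ * u)) = ∑' γ : ℝ, (v γ : ℂ) * cexp (I * ((-γ : ℝ) : ℂ) * u) := by
    rw [Complex.conj_tsum]
    refine tsum_congr fun γ => ?_
    rw [map_mul, Complex.conj_ofReal, ← Complex.exp_conj, map_mul, map_mul, Complex.conj_I, Complex.conj_ofReal,
      Complex.conj_ofReal]
    congr 2
    push_cast
    ring
  rw [h1, tsum_mul_tsum_of_summable_norm]
  · refine tsum_congr fun p => ?_
    have h2 : cexp (I * ((p.1 - p.2 : ℝ) : ℂ) * u) = cexp (I * p.1 * u) * cexp (I * ((-p.2 : ℝ) : ℂ) * u) := by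
      rw [← Complex.exp_add]
      congr 1
      push_cast
      ring
    rw [h2]
    ring
  · simpa only [nexp] using hw'
  · simpa only [nexp] using hv'

theorem ms : Pool.Agent.Q253.NF.S_MS := by
  intro w v F G hw hv hF hG ⟨C, hC⟩ ⟨D, hD⟩
  have hw' : Summable fun γ : ℝ => ‖((w γ : ℝ) : ℂ)‖ := hw.congr fun γ => by
    rw [Complex.norm_real, Real.norm_eq_abs]
  have hv' : Summable fun γ : ℝ => ‖((v γ : ℝ) : ℂ)‖ := hv.congr fun γ => by
    rw [Complex.norm_real, Real.norm_eq_abs]
  have hexp : ∀ u : ℝ, 0 ≤ u → Real.exp (-(u / 4)) ≤ 1 := fun u hu => Real.exp_le_one_iff.2 (by linarith)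
  constructor
  · set Bv : ℝ := ∑' γ : ℝ, ‖((v γ : ℝ) : ℂ)‖ with hBv
    set Bw : ℝ := ∑' γ : ℝ, ‖((w γ : ℝ) : ℂ)‖ with hBw
    have h1 := mean_close (fun p : ℝ × ℝ => ((w p.1 : ℝ) : ℂ) * ((v p.2 : ℝ) : ℂ)) (fun p => p.1 - p.2)
      (sumPr w v hw' hv')
      (fun u => F u * conj (G u)) (hF.mul (Complex.continuous_conj.comp hG))
      (|C| * (|D| + Bv) + Bw * |D|) ?_
    · rw [diag w v] at h1
      exact h1
    · intro u hu
      rw [← prodS w v hw' hv' u]
      have hS := norm_c (fun γ : ℝ => ((w γ : ℝ) : ℂ)) (fun γ => γ) hw' u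
      have hT := norm_c (fun γ : ℝ => ((v γ : ℝ) : ℂ)) (fun γ => γ) hv' u
      have hC' := hC u hu
      have hD' := hD u hu
      set S : ℂ := ∑' γ : ℝ, (w γ : ℂ) * cexp (I * γ * u) with hSd
      set T : ℂ := ∑' γ : ℝ, (v γ : ℂ) * cexp (I * γ * u) with hTd
      set x : ℝ := Real.exp (-(u / 4)) with hx
      have hx0 : 0 < x := Real.exp_pos _
      have hx1 : x ≤ 1 := hexp u hu
      have hC2 : ‖F u - S‖ ≤ |C| * x := hC'.trans (mul_le_mul_of_nonneg_right (le_abs_self _) hx0.le)
      have hD2 : ‖G u - T‖ ≤ |D| * x := hD'.trans (mul_le_mul_of_nonneg_right (le_abs_self _) hx0.le)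
      have hD3 : |D| * x ≤ |D| := by
        calc |D| * x ≤ |D| * 1 := mul_le_mul_of_nonneg_left hx1 (abs_nonneg _)
          _ = |D| := mul_one _
      have hG2 : ‖G u‖ ≤ |D| + Bv := by
        have h2 : ‖G u‖ ≤ ‖G u - T‖ + ‖T‖ := norm_le_norm_sub_add _ _
        linarith
      have e : F u * conj (G u) - S * conj T = (F u - S) * conj (G u) + S * conj (G u - T) := by
        rw [map_sub]
        ring
      rw [e]
      refine (norm_add_le _ _).trans ?_
      rw [norm_mul, norm_mul, Complex.norm_conj, Complex.norm_conj]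
      have h3 : ‖F u - S‖ * ‖G u‖ ≤ (|C| * x) * (|D| + Bv) :=
        mul_le_mul hC2 hG2 (norm_nonneg _) (by positivity)
      have h4 : ‖S‖ * ‖G u - T‖ ≤ Bw * (|D| * x) :=
        mul_le_mul hS hD2 (norm_nonneg _) ((norm_nonneg _).trans hS)
      calc ‖F u - S‖ * ‖G u‖ + ‖S‖ * ‖G u - T‖ ≤ (|C| * x) * (|D| + Bv) + Bw * (|D| * x) := add_le_add h3 h4
        _ = (|C| * (|D| + Bv) + Bw * |D|) * x := by ring
  · intro t
    have h1 := mean_close (fun γ : ℝ => ((w γ : ℝ) : ℂ)) (fun γ => γ - t) hw'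
      (fun u => F u * cexp (-(I * t * u))) (by fun_prop) C ?_
    · have h2 : (∑' γ : ℝ, if γ - t = 0 then ((w γ : ℝ) : ℂ) else 0) = ((w t : ℝ) : ℂ) := by
        rw [tsum_eq_single t]
        · simp
        · intro γ hγ
          rw [if_neg (sub_ne_zero.2 hγ)]
      rw [h2] at h1
      exact h1
    · intro u hu
      have h2 : (∑' γ : ℝ, ((w γ : ℝ) : ℂ) * cexp (I * ((γ - t : ℝ) : ℂ) * u)) =
          (∑' γ : ℝ, (w γ : ℂ) * cexp (I * γ * u)) * cexp (-(I * t * u)) := by
        rw [← tsum_mul_right]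
        refine tsum_congr fun γ => ?_
        have h5 : cexp (I * ((γ - t : ℝ) : ℂ) * u) = cexp (I * γ * u) * cexp (-(I * t * u)) := by
          rw [← Complex.exp_add]
          congr 1
          push_cast
          ring
        rw [h5]
        ring
      rw [h2, ← sub_mul, norm_mul]
      have h3 : ‖cexp (-(I * t * u))‖ = 1 := by
        have h4 := nexp 1 (-t) u
        rw [one_mul, norm_one] at h4
        rw [← h4]
        congr 2
        push_cast
        ring
      rw [h3, mul_one]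
      exact hC u hu

end Pool.Agent.Q153.NF
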